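import Pool.Agent.Y772.HI.Pub

/-!
# Simple zeros on the critical line of L-functions of degree three of Hecke characters

Let `K` be a totally real cubic field and `ψ` a primitive Hecke character of `K` of any finite
conductor and any infinity type (in general of infinite order), whose automorphic induction to
`GL_3` over `ℚ` is cuspidal.  The twists of its L-function by primitive Dirichlet characters `χ`
have degree three.  We prove, without any hypothesis, that in the average over `χ` at least 27.945 per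
cent of the zeros are simple and lie on the critical line, and that there are at least 63.9725 per
cent as many distinct zeros as zeros counted with multiplicity.

All definitions (`IsHecke`, `Irr`, `IsL`, `zeros`, `N₀`, `Ns`, `Nd`, `fam`) are in
`Pool/Agent/Y772/HI/Pub.lean`.
-/

open NumberField
open Pool.Agent.Y772.HI.Pub (IsHecke Irr IsL N₀ Ns Nd fam)

namespace Pool.Agent.Results.MP_bd232a_nt.CubicHeckeCriticalZeros

/-- **Main theorem.** -/
theorem result (K : Type) [Field K] [NumberField K] [IsTotallyReal K]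
    (hK : Module.finrank ℚ K = 3) (𝔣 : Ideal (𝓞 K)) (ν : InfinitePlace K → ℝ)
    (ψ : Ideal (𝓞 K) →*₀ ℂ) (hψ : IsHecke K 𝔣 ν ψ) (hirr : Irr 𝔣 ψ) :
    ∃ L : (q : ℕ) → DirichletCharacter ℂ q → ℂ → ℂ,
      (∀ (q : ℕ) (χ : DirichletCharacter ℂ q), 2 ≤ q →
        Nat.Coprime q (Ideal.absNorm 𝔣 * (discr K).natAbs) → χ.IsPrimitive → IsL ψ q χ (L q χ)) ∧
      ∃ κ η X₀ : ℝ, 1 ≤ κ ∧ 0 < η ∧ 1 ≤ X₀ ∧
        ∀ (X Y : ℕ) (T : ℝ), X₀ ≤ X → κ * X ≤ Y → (Y : ℝ) ≤ (X : ℝ) ^ (1 + η) →
        (Real.log X) ^ 2 ≤ T → T ≤ (X : ℝ) ^ η →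
        0.27945 * fam (Ideal.absNorm 𝔣 * (discr K).natAbs) X Y (fun q χ => N₀ (L q χ) T) ≤
          fam (Ideal.absNorm 𝔣 * (discr K).natAbs) X Y (fun q χ => Ns (L q χ) T) ∧
        0.639725 * fam (Ideal.absNorm 𝔣 * (discr K).natAbs) X Y (fun q χ => N₀ (L q χ) T) ≤
          fam (Ideal.absNorm 𝔣 * (discr K).natAbs) X Y (fun q χ => Nd (L q χ) T) :=
  Pool.Agent.Y772.HI.Pub.three hK hψ hirr

end Pool.Agent.Results.MP_bd232a_nt.CubicHeckeCriticalZeros
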